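import Pool.Agent.MWLE.StmtsA

/-! Row SPZ of squad MWLE (MP_23468a_al): the two copies in a word where `y` is missing between `z`
and its twin. -/

set_option autoImplicit false

namespace Pool.Agent.MWLE.H75

open Pool.Agent.Helper14_MV Pool.Agent.Helper2_MV
open Pool.Agent.MWK (pre)
open Pool.Agent.MWGN (nn)
open Pool.Agent.MWLE

theorem fu_pin {m k : ℕ} : Fu m (pin k) = true ↔ 1 ≤ k ∧ k ≤ m + 1 := by
  unfold Fu pin sep con
  simp only [decide_eq_true_eq]
  omega

theorem fz_pin {m k : ℕ} : Fz m (pin k) = true ↔ (1 ≤ k ∧ k ≤ m) ∨ k = m + 2 := by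
  unfold Fz pin sep con
  simp only [decide_eq_true_eq]
  omega

theorem fu_sep {m k : ℕ} : Fu m (sep k) = true ↔ 1 ≤ k ∧ k ≤ m + 1 := by
  unfold Fu pin sep con
  simp only [decide_eq_true_eq]
  omega

theorem fz_sep {m k : ℕ} : Fz m (sep k) = true ↔ (1 ≤ k ∧ k ≤ m) ∨ k = m + 2 := by
  unfold Fz pin sep con
  simp only [decide_eq_true_eq]
  omega

theorem fu_con {m c : ℕ} (hc : c % 5 = 4) : Fu m c = true ↔ c ≤ con m := by
  unfold Fu pin sep con
  simp only [decide_eq_true_eq]
  omega

theorem fz_con {m c : ℕ} (hc : c % 5 = 4) : Fz m c = true ↔ c ≤ con m := by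
  unfold Fz pin sep con
  simp only [decide_eq_true_eq]
  omega

theorem fu_0 {m : ℕ} : Fu m 0 = false := by
  unfold Fu pin sep con
  simp

theorem fz_0 {m : ℕ} : Fz m 0 = false := by
  unfold Fz pin sep con
  simp

theorem fu_1 {m : ℕ} : Fu m 1 = true := by
  unfold Fu
  simp

theorem fz_1 {m : ℕ} : Fz m 1 = true := by
  unfold Fz
  simp

/-- the two filters agree on the letters different from `z` and its twin -/
theorem fuz {m c : ℕ} (h : c = 0 ∨ c = 1 ∨ c % 5 = 4 ∨ ∃ k, c = pin k) (h1 : c ≠ pin (m + 1))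
    (h2 : c ≠ pin (m + 2)) : Fu m c = Fz m c := by
  rw [Bool.eq_iff_iff]
  rcases h with rfl | rfl | h | ⟨k, rfl⟩
  · rw [fu_0, fz_0]
  · rw [fu_1, fz_1]
  · rw [fu_con h, fz_con h]
  · rw [fu_pin, fz_pin]
    have h1' : k ≠ m + 1 := fun e => h1 (by rw [e])
    have h2' : k ≠ m + 2 := fun e => h2 (by rw [e])
    omega

theorem fu_form {m c : ℕ} (h : c = 0 ∨ c = 1 ∨ c % 5 = 4 ∨ ∃ k, c = pin k) (h1 : c ≠ pin (m + 1))
    (hF : Fu m c = true) : c = 1 ∨ (∃ k ≤ m, c = con k) ∨ ∃ i < m, c = pin (i + 1) := by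
  rcases h with rfl | rfl | h | ⟨k, rfl⟩
  · rw [fu_0] at hF
    exact absurd hF (by simp)
  · exact Or.inl rfl
  · right
    left
    rw [fu_con h] at hF
    unfold con at hF ⊢
    exact ⟨c / 5, by omega, by omega⟩
  · right
    right
    rw [fu_pin] at hF
    have h1' : k ≠ m + 1 := fun e => h1 (by rw [e])
    exact ⟨k - 1, by omega, by rw [show k - 1 + 1 = k by omega]⟩

theorem pin_inj {j k : ℕ} (h : pin j = pin k) : j = k := by
  unfold pin at h
  omega

theorem pin_ne_one (k : ℕ) : pin k ≠ 1 := by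
  unfold pin
  omega

/-- ROW SPZ -/
theorem spz : SpzStmt := by
  intro σ τ m hS W hF h4 h2 ht h0 h1
  have hne : 0 ∈ σ := (hS.me 0).2 (by omega)
  obtain ⟨h, σ', hσ⟩ : ∃ h σ', σ = h :: σ' := by
    cases σ with
    | nil => simp at hne
    | cons h σ' => exact ⟨h, σ', rfl⟩
  have ht1 : t1 σ = sep h := by
    unfold t1
    rw [hσ]
    rfl
  have hh : h ≤ 2 * m + 2 := (hS.me h).1 (by rw [hσ]; simp)
  -- no `sep` in front of `t1 σ`
  have hsep : ∀ k ≤ 2 * m + 2, sep k ∉ pre W (t1 σ) := by
    intro k hk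
    rw [ht1]
    by_cases hkh : k = h
    · rw [hkh]
      exact Pool.Agent.MWK.not_mem_pre W (sep h)
    · have hp : h ∈ pre σ k := by
        rw [hσ]
        unfold pre
        rw [List.takeWhile_cons]
        simp [Ne.symm hkh]
      have h5 := hF.ss h k hh hk hp
      exact Pool.Agent.MWK.pre_asymm (List.count_pos_iff.1 (by
        unfold nn at h5
        omega))
  have hpin : ∀ k ≤ 2 * m + 2, (pre W (t1 σ)).count (pin k) = 1 := fun k hk => hF.pt k hk
  have hzt : pin (m + 1) ∈ pre W (t1 σ) :=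
    List.count_pos_iff.1 (by rw [hpin (m + 1) (by omega)]; exact Nat.one_pos)
  have hzt' : pin (m + 2) ∈ pre W (t1 σ) :=
    List.count_pos_iff.1 (by rw [hpin (m + 2) (by omega)]; exact Nat.one_pos)
  have hzz : pin (m + 1) ∈ pre W (pin (m + 2)) := hF.po (m + 1) (m + 2) (by omega) (by omega)
  obtain ⟨Q', hQ'⟩ := Pool.Agent.MWK.pre_mono hzt'
  obtain ⟨G', hG'⟩ := Pool.Agent.MWK.pre_mono hzz
  have hW : W = pre W (t1 σ) ++ sf W (t1 σ) :=
    (List.prefix_iff_eq_append.1 (Pool.Agent.MWK.pre_prefix W (t1 σ))).symm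
  have hA : pre W (t1 σ) = pre W (pin (m + 1)) ++ pin (m + 1) :: (G' ++ pin (m + 2) :: Q') := by
    rw [hQ', hG']
    simp
  have hWe : W = pre W (pin (m + 1)) ++
      pin (m + 1) :: (G' ++ pin (m + 2) :: (Q' ++ sf W (t1 σ))) := by
    conv_lhs => rw [hW, hA]
    simp
  have hcA : ∀ c, (pre W (t1 σ)).count c = (pre W (pin (m + 1))).count c +
      ((if pin (m + 1) = c then 1 else 0) + (G'.count c +
        ((if pin (m + 2) = c then 1 else 0) + Q'.count c))) := by
    intro c
    rw [hA, List.count_append, List.count_cons, List.count_append, List.count_cons]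
    simp only [beq_iff_eq]
    omega
  have hcW : ∀ c, W.count c = (pre W (t1 σ)).count c + (sf W (t1 σ)).count c := by
    intro c
    conv_lhs => rw [hW]
    rw [List.count_append]
  have hcz : ∀ c, (pre W (pin (m + 2))).count c = (pre W (pin (m + 1))).count c +
      ((if pin (m + 1) = c then 1 else 0) + G'.count c) := by
    intro c
    rw [hG', List.count_append, List.count_cons]
    simp only [beq_iff_eq]
    omega
  -- `z` and its twin
  have hz12 : pin (m + 1) ≠ pin (m + 2) := fun e => by
    have := pin_inj e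
    omega
  have z1 := hcA (pin (m + 1))
  rw [hpin (m + 1) (by omega), if_pos rfl, if_neg (Ne.symm hz12)] at z1
  have z2 := hcA (pin (m + 2))
  rw [hpin (m + 2) (by omega), if_pos rfl, if_neg hz12] at z2
  have zP : pin (m + 1) ∉ pre W (pin (m + 1)) := List.count_eq_zero.1 (by omega)
  have zG : pin (m + 1) ∉ G' := List.count_eq_zero.1 (by omega)
  have zQ : pin (m + 1) ∉ Q' := List.count_eq_zero.1 (by omega)
  have zP' : pin (m + 2) ∉ pre W (pin (m + 1)) := List.count_eq_zero.1 (by omega)
  have zG' : pin (m + 2) ∉ G' := List.count_eq_zero.1 (by omega)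
  have zQ' : pin (m + 2) ∉ Q' := List.count_eq_zero.1 (by omega)
  -- the other pins
  have hpk : ∀ k, k < m + 1 → (pre W (pin (m + 1))).count (pin k) = 1 ∧ pin k ∉ G' ∧ pin k ∉ Q' := by
    intro k hk
    have h5 := hcA (pin k)
    rw [hpin k (by omega), if_neg (fun e => by have := pin_inj e; omega),
      if_neg (fun e => by have := pin_inj e; omega)] at h5
    have h6 : 0 < (pre W (pin (m + 1))).count (pin k) :=
      List.count_pos_iff.2 (hF.po k (m + 1) hk (by omega))
    exact ⟨by omega, List.count_eq_zero.1 (by omega), List.count_eq_zero.1 (by omega)⟩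
  -- the letter `1`
  have o1 := hcA 1
  rw [if_neg (pin_ne_one _), if_neg (pin_ne_one _)] at o1
  have o2 := hcz 1
  rw [if_neg (pin_ne_one _)] at o2
  have o3 : (pre W (pin 0)).count 1 ≤ (pre W (pin (m + 1))).count 1 :=
    Pool.Agent.MWK.count_pre_mono (hF.po 0 (m + 1) (by omega) (by omega)) 1
  have ht' : (pre W (t1 σ)).count 1 = W.count 1 := ht
  have h0' : 1 ≤ (pre W (pin 0)).count 1 := h0
  have h1' : (pre W (pin (m + 2))).count 1 ≤ 1 := h1
  have o4 : (pre W (pin (m + 1))).count 1 = 1 := by omega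
  have o5 : G'.count 1 = 0 := by omega
  have o6 : 1 ≤ Q'.count 1 := by omega
  have o7 : (sf W (t1 σ)).count 1 = 0 := by
    have := hcW 1
    omega
  -- letters in front of `t1 σ`
  have hal : ∀ c ∈ pre W (t1 σ), c = 0 ∨ c = 1 ∨ c % 5 = 4 ∨ ∃ k, c = pin k := by
    intro c hc
    rcases hF.al c (Pool.Agent.MWK.mem_of_mem_pre hc) with h5 | h5 | h5 | ⟨k, hk, h5 | h5⟩
    · exact Or.inl h5
    · exact Or.inr (Or.inl h5)
    · exact Or.inr (Or.inr (Or.inl h5))
    · exact Or.inr (Or.inr (Or.inr ⟨k, h5⟩))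
    · exfalso
      rw [h5] at hc
      exact hsep k hk hc
  have mP : ∀ c ∈ pre W (pin (m + 1)), c ∈ pre W (t1 σ) := by
    intro c hc
    rw [hA]
    simp [hc]
  have mG : ∀ c ∈ G', c ∈ pre W (t1 σ) := by
    intro c hc
    rw [hA]
    simp [hc]
  have mQ : ∀ c ∈ Q', c ∈ pre W (t1 σ) := by
    intro c hc
    rw [hA]
    simp [hc]
  have nez : ∀ {c : ℕ} {l : List ℕ}, pin (m + 1) ∉ l → c ∈ l → c ≠ pin (m + 1) := by
    intro c l h5 h6 e
    rw [e] at h6
    exact h5 h6
  have nez' : ∀ {c : ℕ} {l : List ℕ}, pin (m + 2) ∉ l → c ∈ l → c ≠ pin (m + 2) := by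
    intro c l h5 h6 e
    rw [e] at h6
    exact h5 h6
  have eP : (pre W (pin (m + 1))).filter (Fz m) = (pre W (pin (m + 1))).filter (Fu m) :=
    List.filter_congr (fun c hc => (fuz (hal c (mP c hc)) (nez zP hc) (nez' zP' hc)).symm)
  have eG : G'.filter (Fz m) = G'.filter (Fu m) :=
    List.filter_congr (fun c hc => (fuz (hal c (mG c hc)) (nez zG hc) (nez' zG' hc)).symm)
  have eQ : Q'.filter (Fz m) = Q'.filter (Fu m) :=
    List.filter_congr (fun c hc => (fuz (hal c (mQ c hc)) (nez zQ hc) (nez' zQ' hc)).symm)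
  -- letters behind
  have hsf : ∀ c ∈ sf W (t1 σ), c = 0 ∨ ∃ k ≤ 2 * m + 2, c = pin k ∨ c = sep k := by
    intro c hc
    have hcw : c ∈ W := by
      rw [hW]
      exact List.mem_append_right _ hc
    rcases hF.al c hcw with h5 | h5 | h5 | h5
    · exact Or.inl h5
    · exfalso
      rw [h5] at hc
      have := List.count_pos_iff.2 hc
      omega
    · exfalso
      have h6 : (pre W (t1 σ)).count c = W.count c := h4 c hcw h5
      have h7 := hcW c
      have h8 := List.count_pos_iff.2 hc
      omega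
    · exact Or.inr h5
  have eSu : (sf W (t1 σ)).filter (Fu m) = (sf W (t1 σ)).filter (fun c =>
      decide (∃ k, k ≤ 2 * m + 2 ∧ decide (1 ≤ k ∧ k ≤ m + 1) = true ∧
        (c = sep k ∨ c = pin k))) := by
    refine List.filter_congr (fun c hc => ?_)
    rw [Bool.eq_iff_iff, decide_eq_true_eq]
    rcases hsf c hc with rfl | ⟨k, hk, rfl | rfl⟩
    · rw [fu_0]
      constructor
      · intro h5
        exact absurd h5 (by simp)
      · rintro ⟨k, -, -, h5 | h5⟩
        · unfold sep at h5
          omega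
        · unfold pin at h5
          omega
    · rw [fu_pin]
      constructor
      · intro h5
        exact ⟨k, hk, decide_eq_true h5, Or.inr rfl⟩
      · rintro ⟨j, -, h6, h5 | h5⟩
        · unfold sep pin at h5
          omega
        · rw [pin_inj h5]
          exact of_decide_eq_true h6
    · rw [fu_sep]
      constructor
      · intro h5
        exact ⟨k, hk, decide_eq_true h5, Or.inl rfl⟩
      · rintro ⟨j, -, h6, h5 | h5⟩
        · have : k = j := by
            unfold sep at h5
            omega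
          rw [this]
          exact of_decide_eq_true h6
        · unfold sep pin at h5
          omega
  have eSz : (sf W (t1 σ)).filter (Fz m) = (sf W (t1 σ)).filter (fun c =>
      decide (∃ k, k ≤ 2 * m + 2 ∧ decide ((1 ≤ k ∧ k ≤ m) ∨ k = m + 2) = true ∧
        (c = sep k ∨ c = pin k))) := by
    refine List.filter_congr (fun c hc => ?_)
    rw [Bool.eq_iff_iff, decide_eq_true_eq]
    rcases hsf c hc with rfl | ⟨k, hk, rfl | rfl⟩
    · rw [fz_0]
      constructor
      · intro h5
        exact absurd h5 (by simp)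
      · rintro ⟨k, -, -, h5 | h5⟩
        · unfold sep at h5
          omega
        · unfold pin at h5
          omega
    · rw [fz_pin]
      constructor
      · intro h5
        exact ⟨k, hk, decide_eq_true h5, Or.inr rfl⟩
      · rintro ⟨j, -, h6, h5 | h5⟩
        · unfold sep pin at h5
          omega
        · rw [pin_inj h5]
          exact of_decide_eq_true h6
    · rw [fz_sep]
      constructor
      · intro h5
        exact ⟨k, hk, decide_eq_true h5, Or.inl rfl⟩
      · rintro ⟨j, -, h6, h5 | h5⟩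
        · have : k = j := by
            unfold sep at h5
            omega
          rw [this]
          exact of_decide_eq_true h6
        · unfold sep pin at h5
          omega
  have fz1 : Fu m (pin (m + 1)) = true := fu_pin.2 (by omega)
  have fz2 : ¬ Fu m (pin (m + 2)) = true := fun e => by
    have := fu_pin.1 e
    omega
  have fz3 : ¬ Fz m (pin (m + 1)) = true := fun e => by
    have := fz_pin.1 e
    omega
  have fz4 : Fz m (pin (m + 2)) = true := fz_pin.2 (by omega)
  refine ⟨(pre W (pin (m + 1))).filter (Fu m), G'.filter (Fu m), Q'.filter (Fu m),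
    ?_, ?_, ?_, ?_, ?_, ?_, ?_, ?_, ?_⟩
  · rw [← eSu]
    conv_lhs => rw [hWe]
    rw [List.filter_append, List.filter_cons_of_pos fz1, List.filter_append,
      List.filter_cons_of_neg fz2, List.filter_append]
  · rw [← eSz, ← eP, ← eG, ← eQ]
    conv_lhs => rw [hWe]
    rw [List.filter_append, List.filter_cons_of_neg fz3, List.filter_append,
      List.filter_cons_of_pos fz4, List.filter_append]
  · intro c hc
    rw [List.mem_filter] at hc
    exact fu_form (hal c (mP c hc.1)) (nez zP hc.1) hc.2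
  · intro i hi
    rw [List.count_filter (fu_pin.2 (by omega))]
    exact (hpk (i + 1) (by omega)).1
  · rw [List.count_filter fu_1]
    exact o4
  · intro c hc
    rw [List.mem_filter] at hc
    rcases fu_form (hal c (mG c hc.1)) (nez zG hc.1) hc.2 with h5 | ⟨k, hk, h5⟩ | ⟨i, hi, h5⟩
    · exfalso
      have h6 := List.count_pos_iff.2 hc.1
      rw [h5] at h6
      omega
    · refine ⟨k, hk, h5, ?_⟩
      have h6 := List.count_pos_iff.2 hc.1
      have h7 := hcW c
      have h8 := hcA c
      unfold nn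
      omega
    · exfalso
      have h6 := hc.1
      rw [h5] at h6
      exact (hpk (i + 1) (by omega)).2.1 h6
  · intro c hc
    rw [List.mem_filter] at hc
    rcases fu_form (hal c (mQ c hc.1)) (nez zQ hc.1) hc.2 with h5 | h5 | ⟨i, hi, h5⟩
    · exact Or.inl h5
    · exact Or.inr h5
    · exfalso
      have h6 := hc.1
      rw [h5] at h6
      exact (hpk (i + 1) (by omega)).2.2 h6
  · rw [List.mem_filter]
    exact ⟨List.count_pos_iff.1 o6, fu_1⟩
  · intro k hk h5
    rw [List.mem_filter]
    refine ⟨List.count_pos_iff.1 h5, ?_⟩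
    have h6 : con k % 5 = 4 := by
      unfold con
      omega
    rw [fu_con h6]
    unfold con
    omega

end Pool.Agent.MWLE.H75
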